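import Pool.Agent.H525.PV.Stm
import Pool.Agent.H525.SH.PAF
import Pool.Agent.H525.NF.Mert

set_option autoImplicit false

/-! # Lower bound for the sieve product of a polynomial over a number field (subtask VLOW2 of helper525)

Adapted from `Pool/Agent/H525/SH/VLOW.lean` (the case `f = X`). -/

namespace Pool.Agent.H720.PV

open Finset NumberField Filter Polynomial
open Pool.Agent.Y882 (PZ)
open Pool.Agent.H525.SH (PA S_PAF)
open Pool.Agent.H525.PV (rt NoFix S_RT S_AV2 S_VLOW2)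
open Pool.Agent.H474R2.PG (PR)

theorem one_sub_hf {K : Type} [Field K] [NumberField K] (f : (𝓞 K)[X]) (p : ℕ) :
    1 - Pool.Agent.H525.PV.hf f p = ∏ P ∈ PA K p, (1 - (rt f P : ℝ) / (Ideal.absNorm P : ℝ)) := by
  unfold Pool.Agent.H525.PV.hf
  ring

theorem log_ge {x : ℝ} (h0 : 0 ≤ x) (h1 : x ≤ 1 / 2) : -(x + 2 * x ^ 2) ≤ Real.log (1 - x) := by
  have h2 : 0 < 1 - x := by linarith
  have h3 := Real.one_sub_inv_le_log_of_pos h2
  refine le_trans ?_ h3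
  have h4 : (1 - x)⁻¹ ≤ 1 + x + 2 * x ^ 2 := by
    rw [inv_le_iff_one_le_mul₀ h2]
    nlinarith [mul_nonneg h0 h0, mul_nonneg (mul_nonneg h0 h0) (sub_nonneg.2 h1)]
  linarith

/-- the prime ideals above `p` are not zero and prime, with norms at least `p` -/
theorem PA_facts (hP : S_PAF) (K : Type) [Field K] [NumberField K] (p : ℕ) (hp : p.Prime)
    (P : Ideal (𝓞 K)) (hPm : P ∈ PA K p) : P.IsPrime ∧ P ≠ ⊥ ∧ (p : ℝ) ≤ Ideal.absNorm P ∧
      (Ideal.absNorm P ≠ p → (p : ℝ) ^ 2 ≤ Ideal.absNorm P) := by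
  obtain ⟨h1, h2, -, -⟩ := hP K p hp
  obtain ⟨n, hn, hn'⟩ := h2 P hPm
  refine ⟨((h1 P).1 hPm).1, ?_, ?_, ?_⟩
  · intro h
    rw [h, Ideal.absNorm_bot] at hn'
    exact absurd hn'.symm (pow_pos hp.pos n).ne'
  · rw [hn']
    exact_mod_cast Nat.le_self_pow (by omega) p
  · intro hne
    have : 2 ≤ n := by
      rcases Nat.lt_or_ge n 2 with h | h
      · have : n = 1 := by omega
        rw [this, pow_one] at hn'
        exact absurd hn' hne
      · exact h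
    rw [hn']
    exact_mod_cast Nat.pow_le_pow_right hp.pos this

/-- One prime number: positivity. -/
theorem one (hP : S_PAF) (hR : S_RT) (K : Type) [Field K] [NumberField K] (f : (𝓞 K)[X])
    (hf : NoFix f) (p : ℕ) (hp : p.Prime) :
    0 < 1 - Pool.Agent.H525.PV.hf f p ∧ 1 - Pool.Agent.H525.PV.hf f p ≤ 1 := by
  classical
  have hpos : ∀ P ∈ PA K p, 0 < 1 - (rt f P : ℝ) / (Ideal.absNorm P : ℝ) := by
    intro P hPm
    obtain ⟨h1, h2, h3, -⟩ := PA_facts hP K p hp P hPm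
    have hp0 : (0 : ℝ) < p := by exact_mod_cast hp.pos
    have h4 : (0 : ℝ) < Ideal.absNorm P := lt_of_lt_of_le hp0 h3
    have h5 : (rt f P : ℝ) < Ideal.absNorm P := by exact_mod_cast (hR K f hf P h1 h2).2
    rw [sub_pos, div_lt_one h4]
    exact h5
  rw [one_sub_hf]
  exact ⟨Finset.prod_pos hpos, Finset.prod_le_one (fun P hPm => (hpos P hPm).le)
    fun P _ => by
      have : (0 : ℝ) ≤ (rt f P : ℝ) / (Ideal.absNorm P : ℝ) := by positivity
      linarith⟩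

/-- One large prime number. -/
theorem two (hP : S_PAF) (hR : S_RT) (K : Type) [Field K] [NumberField K] (f : (𝓞 K)[X])
    (hf : NoFix f) (p : ℕ) (hp : p.Prime) (hpg : 2 * f.natDegree ≤ p) :
    -(((∑ P ∈ (PA K p).filter (fun P => Ideal.absNorm P = p), rt f P : ℕ) : ℝ) / p +
      Module.finrank ℚ K * ((f.natDegree : ℝ) + 2 * (f.natDegree : ℝ) ^ 2) * (1 / (p : ℝ) ^ 2)) ≤
        Real.log (1 - Pool.Agent.H525.PV.hf f p) := by
  classical
  obtain ⟨-, -, hcard, -⟩ := hP K p hp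
  have hp0 : (0 : ℝ) < p := by exact_mod_cast hp.pos
  obtain ⟨g, hg⟩ : ∃ g : ℝ, g = (f.natDegree : ℝ) := ⟨_, rfl⟩
  have hg0 : 0 ≤ g := by
    rw [hg]
    positivity
  have hgp : 2 * g ≤ p := by
    rw [hg]
    exact_mod_cast hpg
  rw [← hg]
  have hrt : ∀ P ∈ PA K p, (rt f P : ℝ) ≤ g := by
    intro P hPm
    obtain ⟨h1, h2, -, -⟩ := PA_facts hP K p hp P hPm
    rw [hg]
    exact_mod_cast (hR K f hf P h1 h2).1
  have hN : ∀ P ∈ PA K p, (p : ℝ) ≤ Ideal.absNorm P := fun P hPm =>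
    (PA_facts hP K p hp P hPm).2.2.1
  have hN' : ∀ P ∈ PA K p, Ideal.absNorm P ≠ p → (p : ℝ) ^ 2 ≤ Ideal.absNorm P := fun P hPm =>
    (PA_facts hP K p hp P hPm).2.2.2
  have hx0 : ∀ P ∈ PA K p, 0 ≤ (rt f P : ℝ) / (Ideal.absNorm P : ℝ) := fun P _ => by positivity
  have hx1 : ∀ P ∈ PA K p, (rt f P : ℝ) / (Ideal.absNorm P : ℝ) ≤ g / p := fun P hPm =>
    div_le_div₀ hg0 (hrt P hPm) hp0 (hN P hPm)
  have hx2 : ∀ P ∈ PA K p, (rt f P : ℝ) / (Ideal.absNorm P : ℝ) ≤ 1 / 2 := by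
    intro P hPm
    refine (hx1 P hPm).trans ?_
    rw [div_le_div_iff₀ hp0 (by norm_num)]
    linarith
  have hpos : ∀ P ∈ PA K p, 0 < 1 - (rt f P : ℝ) / (Ideal.absNorm P : ℝ) := fun P hPm => by
    have := hx2 P hPm
    linarith
  rw [one_sub_hf, Real.log_prod (fun P hPm => (hpos P hPm).ne')]
  have hterm : ∀ P ∈ PA K p, -((if Ideal.absNorm P = p then (rt f P : ℝ) / (p : ℝ) else 0) +
      (g + 2 * g ^ 2) * (1 / (p : ℝ) ^ 2)) ≤
      Real.log (1 - (rt f P : ℝ) / (Ideal.absNorm P : ℝ)) := by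
    intro P hPm
    refine le_trans (neg_le_neg ?_) (log_ge (hx0 P hPm) (hx2 P hPm))
    have h7 : ((rt f P : ℝ) / (Ideal.absNorm P : ℝ)) ^ 2 ≤ g ^ 2 * (1 / (p : ℝ) ^ 2) := by
      refine (pow_le_pow_left₀ (hx0 P hPm) (hx1 P hPm) 2).trans (le_of_eq ?_)
      rw [div_pow]
      ring
    have h8 : (0 : ℝ) ≤ g * (1 / (p : ℝ) ^ 2) := by positivity
    by_cases hq : Ideal.absNorm P = p
    · rw [if_pos hq, hq]
      rw [hq] at h7
      linarith
    · rw [if_neg hq]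
      have h9 : (rt f P : ℝ) / (Ideal.absNorm P : ℝ) ≤ g / (p : ℝ) ^ 2 :=
        div_le_div₀ hg0 (hrt P hPm) (by positivity) (hN' P hPm hq)
      rw [div_eq_mul_one_div g] at h9
      linarith
  refine le_trans ?_ (Finset.sum_le_sum hterm)
  rw [Finset.sum_neg_distrib, Finset.sum_add_distrib, ← Finset.sum_filter, Finset.sum_const,
    nsmul_eq_mul, ← Finset.sum_div]
  apply neg_le_neg
  push_cast
  have h10 : ((PA K p).card : ℝ) * ((g + 2 * g ^ 2) * (1 / (p : ℝ) ^ 2)) ≤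
      Module.finrank ℚ K * (g + 2 * g ^ 2) * (1 / (p : ℝ) ^ 2) := by
    have : ((PA K p).card : ℝ) ≤ Module.finrank ℚ K := by exact_mod_cast hcard
    have h8 : (0 : ℝ) ≤ (g + 2 * g ^ 2) * (1 / (p : ℝ) ^ 2) := by positivity
    calc _ ≤ (Module.finrank ℚ K : ℝ) * ((g + 2 * g ^ 2) * (1 / (p : ℝ) ^ 2)) :=
          mul_le_mul_of_nonneg_right this h8
      _ = _ := by ring
  linarith

theorem t_VLOW2 : S_RT → S_AV2 → S_VLOW2 := by
  intro hR hA K _ _ f hf hirr hdeg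
  have hP : S_PAF := Pool.Agent.H525.SH.X.t_PAF
  obtain ⟨L, iL1, iL2, p₀, hA⟩ := hA K f hirr hdeg
  obtain ⟨C, hC0, w₀, hw⟩ := Pool.Agent.H525.NF.homs_upper L
  have hs : Summable fun n : ℕ => 1 / (n : ℝ) ^ 2 := Real.summable_one_div_nat_pow.2 (by norm_num)
  obtain ⟨S, hS⟩ : ∃ S : ℝ, S = ∑' n : ℕ, 1 / (n : ℝ) ^ 2 := ⟨_, rfl⟩
  obtain ⟨B, hB⟩ : ∃ B : ℝ, B = Module.finrank ℚ K * ((f.natDegree : ℝ) + 2 * (f.natDegree : ℝ) ^ 2) :=
    ⟨_, rfl⟩
  have hB0 : 0 ≤ B := by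
    rw [hB]
    positivity
  obtain ⟨q₀, hq₀⟩ : ∃ q₀ : ℕ, q₀ = max p₀ (2 * f.natDegree) := ⟨_, rfl⟩
  -- the contribution of the small primes
  obtain ⟨E, hE⟩ : ∃ E : ℝ, E = ∑ p ∈ (range q₀).filter Nat.Prime,
    -Real.log (1 - Pool.Agent.H525.PV.hf f p) := ⟨_, rfl⟩
  obtain ⟨D, hD⟩ : ∃ D : ℝ, D = C + B * S + E := ⟨_, rfl⟩
  have hPR : ∀ w : ℝ, ∀ p ∈ PR w, p.Prime := fun w p hp => (Pool.Agent.H525.NF.mem_PR.1 hp).1
  have hone := one hP hR K f hf
  have hlogneg : ∀ p : ℕ, p.Prime → 0 ≤ -Real.log (1 - Pool.Agent.H525.PV.hf f p) := by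
    intro p hp
    have := Real.log_nonpos (hone p hp).1.le (hone p hp).2
    linarith
  have hall : ∀ p : ℕ, p.Prime → -((Nat.card (𝓞 L →+* ZMod p) : ℝ) / p + B * (1 / (p : ℝ) ^ 2) +
      (if p < q₀ then -Real.log (1 - Pool.Agent.H525.PV.hf f p) else 0)) ≤
      Real.log (1 - Pool.Agent.H525.PV.hf f p) := by
    intro p hp
    by_cases h : p < q₀
    · rw [if_pos h]
      have h1 : 0 ≤ (Nat.card (𝓞 L →+* ZMod p) : ℝ) / p + B * (1 / (p : ℝ) ^ 2) := by positivity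
      linarith
    · rw [if_neg h, add_zero]
      push Not at h
      rw [hq₀] at h
      have h1 := two hP hR K f hf p hp ((le_max_right _ _).trans h)
      rw [hA p hp ((le_max_left _ _).trans h), ← hB] at h1
      exact h1
  -- large `w`
  have hlarge : ∀ w : ℝ, max w₀ 3 ≤ w →
      Real.exp (-D) / Real.log w ≤ ∏ p ∈ PR w, (1 - Pool.Agent.H525.PV.hf f p) := by
    intro w hw'
    have hw3 : (3 : ℝ) ≤ w := (le_max_right _ _).trans hw'
    have hlog : 0 < Real.log w := Real.log_pos (by linarith)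
    have hpos : 0 < ∏ p ∈ PR w, (1 - Pool.Agent.H525.PV.hf f p) :=
      Finset.prod_pos fun p hp => (hone p (hPR w p hp)).1
    have h1 : -(Real.log (Real.log w) + D) ≤
        Real.log (∏ p ∈ PR w, (1 - Pool.Agent.H525.PV.hf f p)) := by
      rw [Real.log_prod (fun p hp => (hone p (hPR w p hp)).1.ne')]
      refine le_trans ?_ (Finset.sum_le_sum fun p hp => hall p (hPR w p hp))
      rw [Finset.sum_neg_distrib, Finset.sum_add_distrib, Finset.sum_add_distrib, ← Finset.mul_sum]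
      apply neg_le_neg
      have h2 := hw w ((le_max_left _ _).trans hw')
      have h3 : ∑ p ∈ PR w, 1 / (p : ℝ) ^ 2 ≤ S := by
        rw [hS]
        exact hs.sum_le_tsum _ fun n _ => by positivity
      have h4 : B * ∑ p ∈ PR w, 1 / (p : ℝ) ^ 2 ≤ B * S := mul_le_mul_of_nonneg_left h3 hB0
      have h5 : ∑ p ∈ PR w, (if p < q₀ then -Real.log (1 - Pool.Agent.H525.PV.hf f p) else 0) ≤ E := by
        rw [← Finset.sum_filter, hE]
        refine Finset.sum_le_sum_of_subset_of_nonneg ?_ ?_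
        · intro p hp
          rw [mem_filter] at hp
          rw [mem_filter, mem_range]
          exact ⟨hp.2, hPR w p hp.1⟩
        · intro p hp _
          exact hlogneg p (mem_filter.1 hp).2
      linarith
    have h5 := Real.exp_le_exp.2 h1
    rw [Real.exp_log hpos] at h5
    refine le_trans (le_of_eq ?_) h5
    rw [neg_add, Real.exp_add, Real.exp_neg (Real.log (Real.log w)), Real.exp_log hlog]
    rw [div_eq_inv_mul]
  -- monotonicity
  have hmono : ∀ (S T : Finset ℕ), S ⊆ T → (∀ p ∈ T, p.Prime) →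
      ∏ p ∈ T, (1 - Pool.Agent.H525.PV.hf f p) ≤ ∏ p ∈ S, (1 - Pool.Agent.H525.PV.hf f p) := by
    intro S T hST hT
    rw [← Finset.prod_sdiff hST]
    have h1 : ∏ p ∈ T \ S, (1 - Pool.Agent.H525.PV.hf f p) ≤ 1 :=
      Finset.prod_le_one (fun p hp => (hone p (hT p (mem_sdiff.1 hp).1)).1.le)
        fun p hp => (hone p (hT p (mem_sdiff.1 hp).1)).2
    have h2 : 0 ≤ ∏ p ∈ S, (1 - Pool.Agent.H525.PV.hf f p) :=
      Finset.prod_nonneg fun p hp => (hone p (hT p (hST hp))).1.le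
    exact mul_le_of_le_one_left h2 h1
  have hPZ : ∀ (Y : ℕ) (ε₁ : ℝ) (w : ℝ), (Y : ℝ) ≤ w → PZ Y ε₁ ⊆ PR w := by
    intro Y ε₁ w hYw p hp
    unfold PZ at hp
    rw [mem_filter, mem_Icc] at hp
    rw [Pool.Agent.H525.NF.mem_PR]
    exact ⟨hp.2.1, le_trans (by exact_mod_cast hp.1.2) hYw⟩
  obtain ⟨w₁, hw₁⟩ : ∃ w₁ : ℝ, w₁ = max w₀ 3 := ⟨_, rfl⟩
  have hw13 : (3 : ℝ) ≤ w₁ := hw₁ ▸ le_max_right _ _
  have hl1 : 0 < Real.log w₁ := Real.log_pos (by linarith)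
  have hl2 : 0 < Real.log 2 := Real.log_pos (by norm_num)
  refine ⟨min (Real.exp (-D)) (Real.exp (-D) / Real.log w₁ * Real.log 2), by positivity, ?_⟩
  intro Y ε₁ hY
  have hY2 : (2 : ℝ) ≤ Y := by exact_mod_cast hY
  have hlY : Real.log 2 ≤ Real.log Y := Real.log_le_log (by norm_num) hY2
  have hlY0 : 0 < Real.log Y := hl2.trans_le hlY
  rcases le_or_gt w₁ (Y : ℝ) with h | h
  · refine le_trans ?_ ((hlarge Y (hw₁ ▸ h)).trans (hmono _ _ (hPZ Y ε₁ Y le_rfl) (hPR _)))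
    exact div_le_div_of_nonneg_right (min_le_left _ _) hlY0.le
  · refine le_trans ?_ ((hlarge w₁ hw₁.ge).trans (hmono _ _ (hPZ Y ε₁ w₁ h.le) (hPR _)))
    rw [div_le_iff₀ hlY0]
    refine (min_le_right _ _).trans ?_
    exact mul_le_mul_of_nonneg_left hlY (by positivity)

end Pool.Agent.H720.PV
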